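import Mathlib

namespace Pool.Agent.Results.MP_812af1_co.Counter
open Matrix

/-- Square complex matrices of order `n + 2`. -/
abbrev Mat (n : ℕ) := Matrix (Fin (n + 2)) (Fin (n + 2)) ℂ

/-- Butson matrix `BH(m, n + 2)`. -/
def Butson {n : ℕ} (m : ℕ) (H : Mat n) : Prop :=
  (∀ i j, H i j ^ m = 1) ∧ H * Hᴴ = ((n + 2 : ℕ) : ℂ) • (1 : Mat n)

/-- One elementary operation: permute rows, permute columns, scale a row or a column by `D_m`. -/
def Step {n : ℕ} (m : ℕ) (H K : Mat n) : Prop :=
  (∃ σ : Equiv.Perm (Fin (n + 2)), ∀ i j, K i j = H (σ i) j) ∨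
  (∃ σ : Equiv.Perm (Fin (n + 2)), ∀ i j, K i j = H i (σ j)) ∨
  (∃ r z, z ^ m = 1 ∧ ∀ i j, K i j = if i = r then z * H i j else H i j) ∨
  (∃ c z, z ^ m = 1 ∧ ∀ i j, K i j = if j = c then z * H i j else H i j)

def Normalised {n : ℕ} (K : Mat n) : Prop := (∀ j, K 0 j = 1) ∧ ∀ i, K i 0 = 1

/-- Row balanced and column balanced. -/
def Balanced {n : ℕ} (m : ℕ) (K : Mat n) : Prop :=
  (∀ i ≠ 0, ∀ z w : ℂ, z ^ m = 1 → w ^ m = 1 → {j | K i j = z}.ncard = {j | K i j = w}.ncard) ∧
  (∀ j ≠ 0, ∀ z w : ℂ, z ^ m = 1 → w ^ m = 1 → {i | K i j = z}.ncard = {i | K i j = w}.ncard)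

lemma scale {n m : ℕ} (K : Mat n) (d : Fin (n + 2) → ℂ) (hd : ∀ j, d j ^ m = 1)
    (s : Finset (Fin (n + 2))) :
    Relation.ReflTransGen (Step m) K (of fun i j => if j ∈ s then d j * K i j else K i j) := by
  induction s using Finset.induction_on with
  | empty =>
    simp only [Finset.notMem_empty, if_false]
    exact Relation.ReflTransGen.refl
  | insert c s hc ih =>
    refine ih.tail (Or.inr (Or.inr (Or.inr ⟨c, d c, hd c, fun i j => ?_⟩)))
    by_cases e : j = c
    · subst e; simp [hc]
    · simp [e]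

def u (a : ℕ) : GaussianInt := if a = 0 then 1 else if a = 1 then ⟨0, 1⟩ else if a = 2 then -1 else ⟨0, -1⟩

def M : Matrix (Fin 16) (Fin 16) GaussianInt := fun i j => u
  (7434155150102830372969345156109207899192154923761969857075663702903453130430697059186040387762750331877086853380037670019881160990139673639552907913199616 / 4 ^ (16 * i.val + j.val) % 4)

lemma root (z : ℂ) (h : z ^ 4 = 1) : ∃ a : Fin 4, z = GaussianInt.toComplex (u a) := by
  have : (z - 1) * (z - Complex.I) * (z + 1) * (z + Complex.I) = 0 := by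
    linear_combination h - (z ^ 2 - 1) * Complex.I_sq
  simp only [mul_eq_zero] at this
  rcases this with ((q | q) | q) | q
  · exact ⟨0, by simpa [u, sub_eq_zero] using q⟩
  · exact ⟨1, by simpa [u, sub_eq_zero, GaussianInt.toComplex_def'] using q⟩
  · exact ⟨2, by simpa [u, add_eq_zero_iff_eq_neg] using q⟩
  · exact ⟨3, by simpa [u, add_eq_zero_iff_eq_neg, GaussianInt.toComplex_def'] using q⟩

lemma cnt (f : Fin 16 → GaussianInt) (z : GaussianInt) :
    {j | GaussianInt.toComplex (f j) = GaussianInt.toComplex z}.ncard =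
      (Finset.univ.filter fun j => f j = z).card := by
  rw [← Set.ncard_coe_finset]
  congr 1; ext j; simp

theorem result : ¬ ∀ (m n : ℕ) (H : Mat n), 1 ≤ m → Butson m H →
    (∀ K, Relation.ReflTransGen (Step m) H K → Normalised K → Balanced m K) ∨
    (∀ K, Relation.ReflTransGen (Step m) H K → Normalised K → ¬ Balanced m K) := by
  intro h
  have p4 : ∀ i j, M i j ^ 4 = 1 := by decide +kernel
  have q4 : ∀ i j, GaussianInt.toComplex (M i j) ^ 4 = 1 := fun i j => by
    rw [← map_pow, p4, map_one]
  rcases h 4 14 (of fun i j => GaussianInt.toComplex (M i j)) (by omega) ⟨q4, by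
    have o : ∀ i j, ∑ k, M i k * star (M j k) = if i = j then 16 else 0 := by decide +kernel
    ext i j
    have := congrArg GaussianInt.toComplex (o i j)
    rw [map_sum] at this
    simp only [map_mul, GaussianInt.toComplex_star] at this
    simp only [mul_apply, conjTranspose_apply, of_apply, Matrix.smul_apply, Matrix.one_apply, smul_eq_mul]
    refine this.trans ?_
    split_ifs <;> simp [map_ofNat]⟩ with h | h
  · have s1 : Step 4 (n := 14) (of fun i j => GaussianInt.toComplex (M i j))
        (of fun i j => GaussianInt.toComplex (M (Equiv.swap 0 1 i) j)) :=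
      Or.inl ⟨Equiv.swap 0 1, fun _ _ => rfl⟩
    have s2 := scale (n := 14) (m := 4) (of fun i j => GaussianInt.toComplex (M (Equiv.swap 0 1 i) j))
      (fun j => GaussianInt.toComplex (M 1 j ^ 3))
      (fun j => by rw [← map_pow, ← pow_mul, mul_comm, pow_mul, p4, one_pow, map_one]) Finset.univ
    simp only [Finset.mem_univ, if_true, of_apply, ← map_mul] at s2
    have b := (h _ (s2.head s1) ⟨fun j => by
      have : ∀ j, M 1 j ^ 3 * M (Equiv.swap 0 1 0) j = 1 := by decide +kernel
      rw [of_apply, this, map_one], fun i => by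
      have : ∀ i, M 1 0 ^ 3 * M (Equiv.swap 0 1 i) 0 = 1 := by decide +kernel
      rw [of_apply, this, map_one]⟩).1 3 (by decide) (GaussianInt.toComplex (u 0))
      (GaussianInt.toComplex (u 1)) (by rw [← map_pow, show u 0 ^ 4 = 1 by decide, map_one])
      (by rw [← map_pow, show u 1 ^ 4 = 1 by decide, map_one])
    simp only [of_apply] at b
    rw [cnt, cnt] at b
    revert b
    decide +kernel
  · refine h _ Relation.ReflTransGen.refl ⟨fun j => ?_, fun i => ?_⟩ ⟨?_, ?_⟩
    · have : ∀ j, M 0 j = 1 := by decide +kernel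
      rw [of_apply, this, map_one]
    · have : ∀ i, M i 0 = 1 := by decide +kernel
      rw [of_apply, this, map_one]
    · intro i hi z w hz hw
      obtain ⟨a, rfl⟩ := root z hz
      obtain ⟨b, rfl⟩ := root w hw
      have : ∀ i ≠ 0, ∀ a : Fin 4, (Finset.univ.filter fun j => M i j = u a).card = 4 := by
        decide +kernel
      simp only [of_apply]
      rw [cnt, cnt, this i hi, this i hi]
    · intro i hi z w hz hw
      obtain ⟨a, rfl⟩ := root z hz
      obtain ⟨b, rfl⟩ := root w hw
      have : ∀ i ≠ 0, ∀ a : Fin 4, (Finset.univ.filter fun j => M j i = u a).card = 4 := by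
        decide +kernel
      simp only [of_apply]
      rw [cnt (fun j => M j i), cnt (fun j => M j i), this i hi, this i hi]

end Pool.Agent.Results.MP_812af1_co.Counter
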